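import Mathlib
import Pool.Agent.Y146.SV.Main
import Pool.Agent.Y607.SV.Order

/-!
# The exact range of the exponents in the Saff–Varga width conjecture

The definitions (entire series, sections, order, the regions `S_θ(τ)`) are those of
`Pool/Agent/Results/MP_a05d5a_an/FiniteOrderDisproof.lean`.
-/

set_option autoImplicit false

namespace Pool.Agent.Results.MP_a05d5a_an.ExactRange

open Pool.Agent.Results.MP_a05d5a_an.FiniteOrderDisproof

/-- The assertion of Q1 for given `τ`, `K`, `x₀`: for every entire function of positive finite order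
`lam > τ` there is an infinite set `M` of positive integers such that every region `S_θ(τ)` contains
a zero of `p_m` for some `m ∈ M`. -/
def Assertion (τ K x₀ : ℝ) : Prop :=
  ∀ a : ℕ → ℂ, IsEntire a → ∀ lam : ℝ, order a = (lam : EReal) → 0 < lam → τ < lam →
    ∃ M : Set ℕ, M.Infinite ∧ (∀ m ∈ M, 1 ≤ m) ∧
      ∀ θ : ℝ, ∃ m ∈ M, ∃ z ∈ region τ K x₀ θ, partialSum a m z = 0

/-- (1) The assertion of Q1 holds for the exponent `τ` if and only if `τ ≤ 0` (for any `K > 0` and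
`x₀ > 0`).

(2) For every `τ > 0`, `K > 0`, `x₀ > 0` and `N ≥ 1` there is an entire function of positive finite
order `lam > τ` such that no section `p_m`, `m ≥ 0`, has a zero in any of the `N` regions
`S_θ(τ)`, `θ = 2πj/N`.

(3) For every entire function of positive order (finite or not) there is one infinite set `M` of
positive integers such that for all `τ ≤ 0`, `K > 0` and `x₀` all sections `p_m` with `m ∈ M`
large have a zero in every region `S_θ(τ)`, `θ` real. -/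
theorem result :
    (∀ τ K x₀ : ℝ, 0 < K → 0 < x₀ → (Assertion τ K x₀ ↔ τ ≤ 0)) ∧
    (∀ (τ K x₀ : ℝ) (N : ℕ), 0 < τ → 0 < K → 0 < x₀ → 0 < N →
      ∃ a : ℕ → ℂ, IsEntire a ∧ (∃ lam : ℝ, order a = (lam : EReal) ∧ 0 < lam ∧ τ < lam) ∧
        ∀ m j : ℕ, ∀ z ∈ region τ K x₀ (2 * Real.pi * j / N), partialSum a m z ≠ 0) ∧
    (∀ a : ℕ → ℂ, IsEntire a → 0 < order a → ∃ M : Set ℕ, M.Infinite ∧ (∀ m ∈ M, 1 ≤ m) ∧
      ∀ τ K x₀ : ℝ, τ ≤ 0 → 0 < K → ∃ m₀ : ℕ, ∀ m ∈ M, m₀ ≤ m →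
        ∀ θ : ℝ, ∃ z ∈ region τ K x₀ θ, partialSum a m z = 0) := by
  have main := Pool.Agent.Y146.SV.main
  have pos : ∀ a : ℕ → ℂ, IsEntire a → 0 < order a → ∃ M : Set ℕ, M.Infinite ∧
      (∀ m ∈ M, 1 ≤ m) ∧ ∀ τ K x₀ : ℝ, τ ≤ 0 → 0 < K → ∃ m₀ : ℕ, ∀ m ∈ M, m₀ ≤ m →
        ∀ θ : ℝ, ∃ z ∈ region τ K x₀ θ, partialSum a m z = 0 := by
    intro a ha ho
    obtain ⟨M, h1, h2, h3⟩ := Pool.Agent.Y607.SV.positive_part ha ho
    refine ⟨M, h1, h2, ?_⟩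
    intro τ K x₀ hτ hK
    obtain ⟨m₀, hm₀⟩ := h3 K (max x₀ 1) hK
    refine ⟨m₀, fun m hm hmm θ => ?_⟩
    obtain ⟨w, hw1, hw2, hw3⟩ := hm₀ m hm hmm θ
    have hw4 : 1 ≤ w.re := (le_max_right _ _).trans hw1
    refine ⟨Complex.exp ((θ : ℂ) * Complex.I) * w,
      ⟨w, (le_max_left _ _).trans hw1, hw2.trans ?_, rfl⟩, hw3⟩
    refine mul_le_mul_of_nonneg_left ?_ hK.le
    calc w.re = w.re ^ (1 : ℝ) := (Real.rpow_one _).symm
      _ ≤ w.re ^ (1 - τ / 2) := Real.rpow_le_rpow_of_exponent_le hw4 (by linarith)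
  refine ⟨fun τ K x₀ hK hx₀ => ⟨fun hA => ?_, fun hτ => ?_⟩,
    fun τ K x₀ N hτ hK hx₀ hN => main τ K x₀ N hτ hK hx₀ hN, pos⟩
  · by_contra hτ
    rw [not_le] at hτ
    obtain ⟨a, h1, ⟨lam, h2, h3, h4⟩, h5⟩ := main τ K x₀ 1 hτ hK hx₀ one_pos
    obtain ⟨M, -, -, h6⟩ := hA a h1 lam h2 h3 h4
    obtain ⟨m, -, z, hz, h7⟩ := h6 0
    refine h5 m 0 z ?_ h7
    have : 2 * Real.pi * ((0 : ℕ) : ℝ) / ((1 : ℕ) : ℝ) = 0 := by simp
    rw [this]
    exact hz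
  · intro a ha lam hlam hlam0 _
    obtain ⟨M, h1, h2, h3⟩ := pos a ha (by
      rw [hlam, ← EReal.coe_zero, EReal.coe_lt_coe_iff]
      exact hlam0)
    obtain ⟨m₀, hm₀⟩ := h3 τ K x₀ hτ hK
    obtain ⟨m, hm, hmm⟩ := h1.exists_gt m₀
    exact ⟨M, h1, h2, fun θ => ⟨m, hm, hm₀ m hm hmm.le θ⟩⟩

end Pool.Agent.Results.MP_a05d5a_an.ExactRange
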